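import Mathlib
import Pool.Agent.X200.FSepMain2
import Pool.Agent.X200.FSepP
import Pool.Agent.X200.FSepSorg

/-!
MP_1ca5ad_gt, Q1: the implication from `C_p(X)` is `F`-separable to `C_p(X)` is Fréchet-Urysohn is
false if `ω₁ < 𝔭` and true under the Borel conjecture, hence independent of ZFC.
-/

set_option autoImplicit false

universe u

namespace Pool.Agent.Results.MP_1ca5ad_gt.Independent

open Set Topology Filter

/-- `C_p(X)`: the continuous real functions with the topology of pointwise convergence. -/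
def Cp (X : Type u) [TopologicalSpace X] : Type u := {f : X → ℝ // Continuous f}

instance (X : Type u) [TopologicalSpace X] : TopologicalSpace (Cp X) :=
  inferInstanceAs (TopologicalSpace {f : X → ℝ // Continuous f})

/-- `A` is `F`-dense in `Y`. -/
def FDense {Y : Type u} [TopologicalSpace Y] (A : Set Y) : Prop :=
  ∀ y, y ∈ closure A ∧ ∀ A' ⊆ A, y ∈ closure A' →
    ∃ s : ℕ → Y, (∀ n, s n ∈ A') ∧ Tendsto s atTop (𝓝 y)

/-- `Y` is `F`-separable. -/
def FSeparable (Y : Type u) [TopologicalSpace Y] : Prop := ∃ A : Set Y, A.Countable ∧ FDense A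

/-- `ω₁ < 𝔭`: every family of at most `ℵ₁` subsets of `ω`, all of whose finite intersections are
infinite, has an infinite pseudointersection. -/
def OmegaOneLtP : Prop := ∀ (I : Type) (F : I → Set ℕ), Cardinal.mk I ≤ Cardinal.aleph 1 →
  (∀ s : Finset I, (⋂ i ∈ s, F i).Infinite) → ∃ P : Set ℕ, P.Infinite ∧ ∀ i, (P \ F i).Finite

/-- Strong measure zero sets of reals. -/
def SMZ (S : Set ℝ) : Prop :=
  ∀ ε : ℕ → ℝ, (∀ n, 0 < ε n) → ∃ c : ℕ → ℝ, S ⊆ ⋃ n, Metric.ball (c n) (ε n)

/-- The Borel conjecture. -/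
def BorelConjecture : Prop := ∀ S : Set ℝ, SMZ S → S.Countable

theorem result :
    -- (1) the implication fails if `ω₁ < 𝔭`
    (OmegaOneLtP → ∃ (X : Type) (_ : TopologicalSpace X), T35Space X ∧
      FSeparable (Cp X) ∧ ¬ FrechetUrysohnSpace (Cp X)) ∧
    -- (2) the implication holds under the Borel conjecture
    (BorelConjecture → ∀ (X : Type u) [TopologicalSpace X] [T35Space X],
      FSeparable (Cp X) → Countable X ∧ FrechetUrysohnSpace (Cp X)) ∧
    -- (3) in ZFC
    (∀ (X : Type u) [TopologicalSpace X], FSeparable (Cp X) → ∀ Φ : Cp X → ℝ,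
      (∀ (s : ℕ → Cp X) (f : Cp X), Tendsto s atTop (𝓝 f) →
        Tendsto (fun n => Φ (s n)) atTop (𝓝 (Φ f))) → Continuous Φ) ∧
    -- (4) `C_p` of the Sorgenfrey line is not `F`-separable
    ¬ FSeparable (@Cp ℝ (TopologicalSpace.generateFrom {S : Set ℝ | ∃ a b : ℝ, S = Ico a b})) := by
  refine ⟨fun hP => ?_, fun hBC X _ _ h => ?_, fun X _ h Φ hΦ => ?_, ?_⟩
  · exact Pool.Agent.X200.FSep.main_P hP
  · have h1 : Countable X := Pool.Agent.X200.FSep.countable_of_BC hBC h
    exact ⟨h1, Pool.Agent.X200.FSep.fu_of_countable⟩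
  · exact Pool.Agent.X200.FSep.seqcont_cont h Φ hΦ
  · exact Pool.Agent.X200.FSep.sorg_not

end Pool.Agent.Results.MP_1ca5ad_gt.Independent
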